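import Pool.Agent.Helper23.GK.StF
import Pool.Agent.Helper2.MR.Avg

/-! Module SU2: smooth blocks, power saving. -/

set_option autoImplicit false

namespace Pool.Agent.Helper5.GK

open Finset
open Pool.Agent.Helper23.GK
open Pool.Agent.Helper2.MR (ch)

/-- Abel summation with a nonnegative decreasing weight -/
theorem abel_su2 (a : ℕ → ℂ) (f : ℕ → ℝ) (N0 : ℕ) (B : ℝ) : ∀ m : ℕ, 1 ≤ m →
    (∀ j, j ≤ m → ‖∑ n ∈ Ioc N0 (N0 + j), a n‖ ≤ B) →
    (∀ j, 1 ≤ j → j < m → f (N0 + j + 1) ≤ f (N0 + j)) →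
    ‖(∑ n ∈ Ioc N0 (N0 + m), a n * (f n : ℂ)) -
      (∑ n ∈ Ioc N0 (N0 + m), a n) * (f (N0 + m) : ℂ)‖ ≤ B * (f (N0 + 1) - f (N0 + m)) := by
  intro m hm
  induction m, hm using Nat.le_induction with
  | base =>
    intro _ _
    simp
  | succ m hm ih =>
    intro hS hf
    have h1 := ih (fun j hj => hS j (by omega)) (fun j h1 h2 => hf j h1 (by omega))
    have h2 := hf m hm (by omega)
    have e1 : Ioc N0 (N0 + (m + 1)) = insert (N0 + m + 1) (Ioc N0 (N0 + m)) := by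
      ext x; simp only [mem_Ioc, mem_insert]; omega
    have hn : N0 + m + 1 ∉ Ioc N0 (N0 + m) := by simp
    have e2 : (∑ n ∈ Ioc N0 (N0 + (m + 1)), a n * (f n : ℂ)) -
        (∑ n ∈ Ioc N0 (N0 + (m + 1)), a n) * (f (N0 + (m + 1)) : ℂ) =
        ((∑ n ∈ Ioc N0 (N0 + m), a n * (f n : ℂ)) -
          (∑ n ∈ Ioc N0 (N0 + m), a n) * (f (N0 + m) : ℂ)) +
        (∑ n ∈ Ioc N0 (N0 + m), a n) * ((f (N0 + m) - f (N0 + m + 1) : ℝ) : ℂ) := by
      rw [e1, sum_insert hn, sum_insert hn]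
      push_cast
      rw [show N0 + (m + 1) = N0 + m + 1 by ring]
      ring
    rw [e2]
    refine (norm_add_le _ _).trans ?_
    have h3 : ‖(∑ n ∈ Ioc N0 (N0 + m), a n) * ((f (N0 + m) - f (N0 + m + 1) : ℝ) : ℂ)‖ ≤
        B * (f (N0 + m) - f (N0 + m + 1)) := by
      rw [norm_mul, Complex.norm_real, Real.norm_of_nonneg (by linarith)]
      exact mul_le_mul_of_nonneg_right (hS m (by omega)) (by linarith)
    have h4 : N0 + (m + 1) = N0 + m + 1 := by ring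
    rw [h4]
    nlinarith [h1, h3]

theorem abel2_su2 (a : ℕ → ℂ) (f : ℕ → ℝ) (N0 : ℕ) (B : ℝ) (m : ℕ) (hm : 1 ≤ m)
    (hS : ∀ j, j ≤ m → ‖∑ n ∈ Ioc N0 (N0 + j), a n‖ ≤ B)
    (hf : ∀ j, 1 ≤ j → j < m → f (N0 + j + 1) ≤ f (N0 + j)) (h0 : 0 ≤ f (N0 + m)) :
    ‖∑ n ∈ Ioc N0 (N0 + m), a n * (f n : ℂ)‖ ≤ B * f (N0 + 1) := by
  have h1 := abel_su2 a f N0 B m hm hS hf
  have h2 : ‖(∑ n ∈ Ioc N0 (N0 + m), a n) * (f (N0 + m) : ℂ)‖ ≤ B * f (N0 + m) := by
    rw [norm_mul, Complex.norm_real, Real.norm_of_nonneg h0]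
    exact mul_le_mul_of_nonneg_right (hS m le_rfl) h0
  have h3 : ∑ n ∈ Ioc N0 (N0 + m), a n * (f n : ℂ) =
      ((∑ n ∈ Ioc N0 (N0 + m), a n * (f n : ℂ)) -
        (∑ n ∈ Ioc N0 (N0 + m), a n) * (f (N0 + m) : ℂ)) +
      (∑ n ∈ Ioc N0 (N0 + m), a n) * (f (N0 + m) : ℂ) := by ring
  rw [h3]
  refine (norm_add_le _ _).trans ?_
  linarith

/-- splitting into residue classes -/
theorem split_su2 {q : ℕ} [NeZero q] (χ : DirichletCharacter ℂ q) (τ : ℝ) (N N' : ℕ) (B : ℝ)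
    (hB : ∀ u : ℕ, ‖∑ n ∈ (Ioc N N').filter (fun n => n ≡ u [MOD q]), ch τ n‖ ≤ B) :
    ‖∑ n ∈ Ioc N N', χ (n : ZMod q) * ch τ n‖ ≤ q * B := by
  have hq : 0 < q := Nat.pos_of_ne_zero (NeZero.ne q)
  have h1 : ∑ n ∈ Ioc N N', χ (n : ZMod q) * ch τ n =
      ∑ u ∈ range q, χ (u : ZMod q) *
        ∑ n ∈ (Ioc N N').filter (fun n => n ≡ u [MOD q]), ch τ n := by
    rw [← sum_fiberwise_of_maps_to (s := Ioc N N') (t := range q) (g := fun n => n % q)
      (fun n _ => mem_range.2 (Nat.mod_lt _ hq))]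
    refine sum_congr rfl fun u hu => ?_
    have hu' : u % q = u := Nat.mod_eq_of_lt (mem_range.1 hu)
    rw [mul_sum]
    have hf : (Ioc N N').filter (fun n => n % q = u) =
        (Ioc N N').filter (fun n => n ≡ u [MOD q]) := by
      refine filter_congr fun n _ => ?_
      rw [Nat.ModEq, hu']
    rw [hf]
    refine sum_congr rfl fun n hn => ?_
    have : (n : ZMod q) = (u : ZMod q) := (ZMod.natCast_eq_natCast_iff _ _ _).2 (mem_filter.1 hn).2
    rw [this]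
  rw [h1]
  refine (norm_sum_le _ _).trans ?_
  calc ∑ u ∈ range q, ‖χ (u : ZMod q) *
        ∑ n ∈ (Ioc N N').filter (fun n => n ≡ u [MOD q]), ch τ n‖ ≤ ∑ _u ∈ range q, B := by
        refine sum_le_sum fun u _ => ?_
        rw [norm_mul]
        calc ‖χ (u : ZMod q)‖ * ‖∑ n ∈ (Ioc N N').filter (fun n => n ≡ u [MOD q]), ch τ n‖
            ≤ 1 * ‖∑ n ∈ (Ioc N N').filter (fun n => n ≡ u [MOD q]), ch τ n‖ :=
              mul_le_mul_of_nonneg_right (DirichletCharacter.norm_le_one χ _) (norm_nonneg _)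
          _ ≤ B := by rw [one_mul]; exact hB u
    _ = q * B := by simp

theorem hSU2 (h : StEs2) : StSu2 := by
  obtain ⟨C, c, hC, hc, hE⟩ := h
  refine ⟨2 * C, c, by positivity, hc, 2 ^ 30, ?_⟩
  intro X hX q _ χ e τ h5 h2 h1 hτ
  have hq : 0 < q := Nat.pos_of_ne_zero (NeZero.ne q)
  have hXr : (2 : ℝ) ^ 30 ≤ X := by exact_mod_cast hX
  have hX2 : (2 : ℝ) ≤ X := le_trans (by norm_num) hXr
  have hX1 : (1 : ℝ) < X := by linarith
  have hX0 : (0 : ℝ) < X := by linarith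
  have h56 : 2 * (X : ℝ) ^ (1 / 6 : ℝ) ≤ (X : ℝ) ^ (1 / 5 : ℝ) := by
    have e1 : (X : ℝ) ^ (1 / 5 : ℝ) = (X : ℝ) ^ (1 / 30 : ℝ) * (X : ℝ) ^ (1 / 6 : ℝ) := by
      rw [← Real.rpow_add hX0]; norm_num
    have e2 : (2 : ℝ) ≤ (X : ℝ) ^ (1 / 30 : ℝ) := by
      calc (2 : ℝ) = ((2 : ℝ) ^ (30 : ℕ)) ^ (1 / 30 : ℝ) := by
            rw [← Real.rpow_natCast, ← Real.rpow_mul (by norm_num)]; norm_num
        _ ≤ (X : ℝ) ^ (1 / 30 : ℝ) := Real.rpow_le_rpow (by norm_num) hXr (by norm_num)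
    rw [e1]
    exact mul_le_mul_of_nonneg_right e2 (by positivity)
  have h32 : (32 : ℝ) ≤ (X : ℝ) ^ (1 / 6 : ℝ) := by
    calc (32 : ℝ) = ((2 : ℝ) ^ (30 : ℕ)) ^ (1 / 6 : ℝ) := by
          rw [← Real.rpow_natCast, ← Real.rpow_mul (by norm_num)]; norm_num
      _ ≤ (X : ℝ) ^ (1 / 6 : ℝ) := Real.rpow_le_rpow (by norm_num) hXr (by norm_num)
  have he : e ≠ 0 := by
    rintro rfl
    norm_num at h5
    linarith
  obtain ⟨d, rfl⟩ : ∃ d, e = d + 1 := ⟨e - 1, by omega⟩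
  set N0 : ℕ := 2 ^ d with hN0
  have hN0r : (X : ℝ) ^ (1 / 6 : ℝ) ≤ (N0 : ℝ) := by
    have : (2 : ℝ) ^ (d + 1) = 2 * (N0 : ℝ) := by rw [hN0]; push_cast; ring
    rw [this] at h5
    linarith
  have hN032 : (32 : ℝ) ≤ (N0 : ℝ) := h32.trans hN0r
  have hN032n : 32 ≤ N0 := by exact_mod_cast hN032
  have hblk : blk2 (d + 1) = Ioc N0 (N0 + N0) := by
    unfold blk2
    rw [if_neg (by omega)]
    congr 1
    rw [hN0]; simp only [pow_succ]; ring
  set D : ℝ := 1 / |τ| + (X : ℝ) ^ (-c) with hD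
  have hD0 : 0 ≤ D := by positivity
  have hτX : |τ| ≤ (X : ℝ) ^ 2 := by nlinarith
  have hS : ∀ j, j ≤ N0 → ‖∑ n ∈ Ioc N0 (N0 + j), χ (n : ZMod q) * ch τ n‖ ≤
      q * (C * q * N0 * D) := by
    intro j hj
    refine split_su2 χ τ N0 (N0 + j) _ fun u => ?_
    exact hE X N0 (N0 + j) q u τ hX2 hN0r (by omega) (by omega) hq h1 hτX
  have hpos : (0 : ℝ) < N0 := by linarith
  have hq1 : (1 : ℝ) ≤ q := by exact_mod_cast hq
  constructor
  · -- weight 1/n
    have hA : AA (cone χ) (d + 1) τ =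
        ∑ n ∈ Ioc N0 (N0 + N0), (χ (n : ZMod q) * ch τ n) * (((1 : ℝ) / n : ℝ) : ℂ) := by
      unfold AA
      rw [hblk]
      refine sum_congr rfl fun n _ => ?_
      unfold cone
      push_cast
      ring
    rw [hA]
    refine (abel2_su2 _ (fun n => 1 / n) N0 _ N0 (by omega) hS ?_ (by positivity)).trans ?_
    · intro j _ _
      refine one_div_le_one_div_of_le (by positivity) ?_
      push_cast
      linarith
    · have h6 : (1 : ℝ) / ((N0 + 1 : ℕ) : ℝ) ≤ 1 / N0 := by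
        refine one_div_le_one_div_of_le hpos ?_
        push_cast; linarith
      calc q * (C * q * N0 * D) * (1 / ((N0 + 1 : ℕ) : ℝ))
          ≤ q * (C * q * N0 * D) * (1 / N0) := mul_le_mul_of_nonneg_left h6 (by positivity)
        _ = C * q ^ 2 * D := by field_simp
        _ ≤ 2 * C * q ^ 2 * D := by
          have : 0 ≤ C * q ^ 2 * D := by positivity
          nlinarith
  · -- weight log n / n
    have hA : AA (clog χ) (d + 1) τ =
        ∑ n ∈ Ioc N0 (N0 + N0), (χ (n : ZMod q) * ch τ n) * ((Real.log n / n : ℝ) : ℂ) := by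
      unfold AA
      rw [hblk]
      refine sum_congr rfl fun n _ => ?_
      unfold clog
      push_cast
      ring
    rw [hA]
    have hexp : Real.exp 1 ≤ 32 := by
      have := Real.exp_one_lt_d9; linarith
    refine (abel2_su2 _ (fun n => Real.log n / n) N0 _ N0 (by omega) hS ?_ ?_).trans ?_
    · intro j _ _
      refine Real.log_div_self_antitoneOn ?_ ?_ ?_
      · change Real.exp 1 ≤ _
        push_cast
        have : (0 : ℝ) ≤ j := by positivity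
        linarith
      · change Real.exp 1 ≤ _
        push_cast
        have : (0 : ℝ) ≤ j := by positivity
        linarith
      · push_cast; linarith
    · have : 0 ≤ Real.log ((N0 + N0 : ℕ) : ℝ) := Real.log_natCast_nonneg _
      positivity
    · have hl : Real.log ((N0 + 1 : ℕ) : ℝ) ≤ 2 * Real.log X := by
        have h7 : ((N0 + 1 : ℕ) : ℝ) ≤ (X : ℝ) ^ 2 := by
          have h8 : (2 : ℝ) ^ (d + 1) = 2 * (N0 : ℝ) := by rw [hN0]; push_cast; ring
          have h9 : (2 : ℝ) ^ (d + 1) ≤ (X : ℝ) ^ 2 := by exact_mod_cast h2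
          push_cast
          linarith
        calc Real.log ((N0 + 1 : ℕ) : ℝ) ≤ Real.log ((X : ℝ) ^ 2) :=
              Real.log_le_log (by positivity) h7
          _ = 2 * Real.log X := by rw [Real.log_pow]; norm_num
      have hlX : 0 ≤ Real.log X := Real.log_nonneg hX1.le
      have h6 : Real.log ((N0 + 1 : ℕ) : ℝ) / ((N0 + 1 : ℕ) : ℝ) ≤ 2 * Real.log X / N0 := by
        refine div_le_div₀ (by positivity) hl hpos ?_
        push_cast; linarith
      calc q * (C * q * N0 * D) * (Real.log ((N0 + 1 : ℕ) : ℝ) / ((N0 + 1 : ℕ) : ℝ))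
          ≤ q * (C * q * N0 * D) * (2 * Real.log X / N0) :=
            mul_le_mul_of_nonneg_left h6 (by positivity)
        _ = 2 * C * q ^ 2 * Real.log X * D := by field_simp

end Pool.Agent.Helper5.GK
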